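import Pool.Agent.K1H76.DK.Stm

/-!
Piece PR of the project DK: the primorial.
-/

set_option autoImplicit false

namespace Pool.Agent.K1H67.DK

open Finset
open Pool.Agent.K1H76.DK

theorem primorial_pos' (N : ℕ) : 0 < primorial N := primorial_pos N

/-- the number of divisors -/
theorem card_div (N : ℕ) : 2 ^ Nat.primeCounting N ≤ (primorial N).divisors.card := by
  classical
  have hp : ∀ s ∈ (Nat.primesLE N).powerset, ∀ p ∈ s, p.Prime := by
    intro s hs p hps
    exact Nat.prime_of_mem_primesLE (Finset.mem_powerset.1 hs hps)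
  rw [← Nat.primesLE_card_eq_primeCounting, ← Finset.card_powerset]
  apply Finset.card_le_card_of_injOn (fun s => ∏ p ∈ s, p)
  · intro s hs
    rw [Finset.mem_coe, Nat.mem_divisors]
    refine ⟨?_, (primorial_pos N).ne'⟩
    rw [primorial_eq_prod_primesLE]
    exact Finset.prod_dvd_prod_of_subset _ _ _ (Finset.mem_powerset.1 hs)
  · intro s hs s' hs' h
    have h1 := Nat.primeFactors_prod (hp s hs)
    have h2 := Nat.primeFactors_prod (hp s' hs')
    simp only at h
    rw [h] at h1
    exact h1.symm.trans h2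

/-- Euler's function -/
theorem prod_ge (N : ℕ) (hN : 1 ≤ N) :
    (1 : ℝ) / N ≤ ∏ p ∈ (range (N + 1)).filter Nat.Prime, (1 - (p : ℝ)⁻¹) := by
  induction N, hN using Nat.le_induction with
  | base =>
    have h : (range (1 + 1)).filter Nat.Prime = ∅ := by decide
    rw [h]
    simp
  | succ N hN ih =>
    have hN0 : (0 : ℝ) < N := by exact_mod_cast hN
    rw [Finset.range_add_one, Finset.filter_insert]
    split_ifs with hp
    · rw [Finset.prod_insert (by simp)]
      have h1 : (0 : ℝ) ≤ 1 - ((N + 1 : ℕ) : ℝ)⁻¹ := by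
        rw [sub_nonneg]
        apply inv_le_one_of_one_le₀
        push_cast
        linarith
      calc (1 : ℝ) / ((N + 1 : ℕ) : ℝ) = (1 - ((N + 1 : ℕ) : ℝ)⁻¹) * (1 / N) := by
            push_cast
            field_simp
            ring
        _ ≤ _ := by gcongr
    · refine le_trans ?_ ih
      push_cast
      gcongr
      linarith

theorem totient_ge (N : ℕ) (hN : 1 ≤ N) :
    (1 : ℝ) / N ≤ ((primorial N).totient : ℝ) / (primorial N : ℝ) := by
  have h1 : ((primorial N).totient : ℚ) =
      (primorial N : ℚ) * ∏ p ∈ (primorial N).primeFactors, (1 - (p : ℚ)⁻¹) :=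
    Nat.totient_eq_mul_prod_factors _
  have h2 : (primorial N).primeFactors = (range (N + 1)).filter Nat.Prime := by
    unfold primorial
    apply Nat.primeFactors_prod
    intro p hp
    exact (Finset.mem_filter.1 hp).2
  rw [h2] at h1
  have h3 : ((primorial N).totient : ℝ) =
      (primorial N : ℝ) * ∏ p ∈ (range (N + 1)).filter Nat.Prime, (1 - (p : ℝ)⁻¹) := by
    have := congrArg (fun x : ℚ => (x : ℝ)) h1
    push_cast at this
    exact this
  have hpos : (0 : ℝ) < primorial N := by exact_mod_cast primorial_pos N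
  rw [h3, mul_div_cancel_left₀ _ hpos.ne']
  exact prod_ge N hN

/-- upper bound for the `j`-th prime -/
theorem log_bound (δ : ℝ) (hδ : 0 < δ) (hδ1 : δ < 1) (N j : ℕ) (hN : 1 ≤ N)
    (h : Nat.primeCounting (N - 1) < j) :
    (1 - δ) * Real.log N ≤ Real.log (j + 1) - Real.log (δ * Real.log 2) := by
  obtain ⟨n, rfl⟩ : ∃ n, N = n + 1 := ⟨N - 1, by omega⟩
  rw [Nat.add_sub_cancel] at h
  have hl2 : 0 < Real.log 2 := Real.log_pos (by norm_num)
  have hl2' : Real.log 2 ≤ 1 := by linarith [Real.log_two_lt_d9]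
  have h1 := Chebyshev.psi_ge n
  have h2 := Chebyshev.psi_le_primeCounting_mul_log n
  set M : ℝ := ((n + 1 : ℕ) : ℝ) with hM
  have hM1 : 1 ≤ M := by rw [hM]; push_cast; linarith [(Nat.cast_nonneg n : (0 : ℝ) ≤ n)]
  have hMn : (n : ℝ) = M - 1 := by rw [hM]; push_cast; ring
  have hlogM : 0 ≤ Real.log M := Real.log_nonneg hM1
  have h3 : Real.log n ≤ Real.log M := by
    rcases Nat.eq_zero_or_pos n with h0 | h0
    · rw [h0]; simpa using hlogM
    · apply Real.log_le_log (by exact_mod_cast h0)
      rw [hMn]; linarith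
  have h4 : (Nat.primeCounting n : ℝ) ≤ (j : ℝ) - 1 := by
    have : Nat.primeCounting n + 1 ≤ j := h
    have h' : ((Nat.primeCounting n + 1 : ℕ) : ℝ) ≤ (j : ℝ) := by exact_mod_cast this
    push_cast at h'
    linarith
  have h5 : (Nat.primeCounting n : ℝ) * Real.log n ≤ ((j : ℝ) - 1) * Real.log M := by
    have h6 : (0 : ℝ) ≤ Nat.primeCounting n := Nat.cast_nonneg _
    calc (Nat.primeCounting n : ℝ) * Real.log n ≤ Nat.primeCounting n * Real.log M := by gcongr
      _ ≤ _ := by gcongr
  have h7 : (M - 1) * Real.log 2 ≤ (j : ℝ) * Real.log M := by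
    have h8 : (n : ℝ) + 1 = M := by rw [hMn]; ring
    rw [h8] at h1
    have h1' : (n : ℝ) * Real.log 2 - Real.log M ≤ (Nat.primeCounting n : ℝ) * Real.log n :=
      h1.trans h2
    rw [← hMn]
    linarith
  have h9 : Real.log M ≤ M ^ δ / δ := Real.log_le_rpow_div (by linarith) hδ
  have hMδ : 1 ≤ M ^ δ := Real.one_le_rpow hM1 hδ.le
  have h10 : M * Real.log 2 ≤ ((j : ℝ) + 1) * (M ^ δ / δ) := by
    have h11 : Real.log 2 ≤ M ^ δ / δ := by
      rw [le_div_iff₀ hδ]
      nlinarith
    have h12 : (0 : ℝ) ≤ j := Nat.cast_nonneg j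
    nlinarith
  have hM0 : 0 < M := by linarith
  have h13 : M ^ (1 - δ) ≤ ((j : ℝ) + 1) / (δ * Real.log 2) := by
    rw [Real.rpow_sub hM0, Real.rpow_one, div_le_div_iff₀ (by positivity) (by positivity)]
    have h14 : ((j : ℝ) + 1) * (M ^ δ / δ) * δ = ((j : ℝ) + 1) * M ^ δ := by
      field_simp
    calc M * (δ * Real.log 2) = (M * Real.log 2) * δ := by ring
      _ ≤ (((j : ℝ) + 1) * (M ^ δ / δ)) * δ := by gcongr
      _ = ((j : ℝ) + 1) * M ^ δ := h14
  have h15 := Real.log_le_log (by positivity) h13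
  rw [Real.log_rpow hM0, Real.log_div (by positivity) (by positivity)] at h15
  exact h15

/-- the asymptotics -/
theorem asym (ε c : ℝ) (hε : 0 < ε) (hc : 0 ≤ c) : ∃ A : ℝ, 3 ≤ A ∧ ∀ L : ℝ, A ≤ L →
    (L / Real.log 2 + 2) * (Real.log (L / Real.log 2 + 2) + c) ≤
      (1 + ε / 2) * (L * Real.log L / Real.log 2) := by
  have hl2 : 0 < Real.log 2 := Real.log_pos (by norm_num)
  have hl2a : 0.69 < Real.log 2 := by linarith [Real.log_two_gt_d9]
  have hl2b : Real.log 2 < 1 := by linarith [Real.log_two_lt_d9]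
  set c' : ℝ := Real.log 3 + c with hc'
  have hc'0 : 0 ≤ c' := by
    have : 0 ≤ Real.log 3 := Real.log_nonneg (by norm_num)
    positivity
  refine ⟨max 3 (max (12 / ε) (Real.exp (6 * c' / ε))), le_max_left _ _, fun L hL => ?_⟩
  have hL3 : 3 ≤ L := (le_max_left _ _).trans hL
  have hL12 : 12 / ε ≤ L := ((le_max_left _ _).trans (le_max_right _ _)).trans hL
  have hLe : Real.exp (6 * c' / ε) ≤ L := ((le_max_right _ _).trans (le_max_right _ _)).trans hL
  have hlog : 6 * c' / ε ≤ Real.log L := by
    rw [Real.le_log_iff_exp_le (by linarith)]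
    exact hLe
  have hlogL : 0 ≤ Real.log L := Real.log_nonneg (by linarith)
  have e1 : 6 * c' ≤ ε * Real.log L := by
    rw [div_le_iff₀ hε] at hlog
    linarith
  have e2 : 12 ≤ ε * L := by
    rw [div_le_iff₀ hε] at hL12
    linarith
  set X : ℝ := L / Real.log 2 with hX
  have hXL : X * Real.log 2 = L := by rw [hX]; field_simp
  have hX1 : L ≤ X := by
    rw [hX, le_div_iff₀ hl2]
    nlinarith
  have hX2 : X + 2 ≤ 3 * L := by
    have : X ≤ 1.45 * L := by
      rw [hX, div_le_iff₀ hl2]
      nlinarith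
    linarith
  have h1 : Real.log (X + 2) ≤ Real.log 3 + Real.log L := by
    rw [← Real.log_mul (by norm_num) (by linarith)]
    exact Real.log_le_log (by linarith) hX2
  have h2 : (X + 2) * (Real.log (X + 2) + c) ≤ (X + 2) * (Real.log L + c') := by
    have : 0 ≤ X + 2 := by linarith
    apply mul_le_mul_of_nonneg_left _ this
    rw [hc']
    linarith
  refine h2.trans ?_
  have h3 : L * Real.log L / Real.log 2 = X * Real.log L := by rw [hX]; ring
  rw [h3]
  -- c' X + 2 log L + 2 c' ≤ (ε / 2) X log L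
  have g1 : c' * X ≤ (ε * Real.log L / 6) * X := by
    have : 0 ≤ X := by linarith
    apply mul_le_mul_of_nonneg_right _ this
    linarith
  have g2 : 2 * Real.log L ≤ (ε * X / 6) * Real.log L := by
    apply mul_le_mul_of_nonneg_right _ hlogL
    nlinarith
  have g3 : 2 * c' ≤ (ε * Real.log L / 6) * X := by
    have h4 : 2 * c' ≤ 2 * (ε * Real.log L / 6) := by linarith
    have h5 : 0 ≤ ε * Real.log L / 6 := by positivity
    nlinarith
  nlinarith

theorem t_PR : S_PR := by
  intro ε hε
  set δ : ℝ := ε / (2 * (1 + ε)) with hδd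
  have hδ : 0 < δ := by positivity
  have hδ1 : δ < 1 := by
    rw [hδd, div_lt_one (by positivity)]
    linarith
  have hδ2 : (1 - δ) * (1 + ε) = 1 + ε / 2 := by
    rw [hδd]
    field_simp
    ring
  have hl2 : 0 < Real.log 2 := Real.log_pos (by norm_num)
  have hl2b : Real.log 2 < 1 := by linarith [Real.log_two_lt_d9]
  set c : ℝ := - Real.log (δ * Real.log 2) with hc
  have hc0 : 0 ≤ c := by
    rw [hc, neg_nonneg]
    apply Real.log_nonpos (by positivity)
    nlinarith
  obtain ⟨A, hA3, hA⟩ := asym ε c hε hc0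
  refine ⟨⌈Real.exp A⌉₊, fun k hk => ?_⟩
  have hkA : Real.exp A ≤ k := Nat.ceil_le.1 hk
  have hk0 : (0 : ℝ) < k := lt_of_lt_of_le (Real.exp_pos _) hkA
  have hkn : k ≠ 0 := by
    rintro rfl
    simp at hk0
  have hLA : A ≤ Real.log k := by
    rw [Real.le_log_iff_exp_le hk0]
    exact hkA
  set j : ℕ := Nat.log 2 k + 1 with hj
  have hex : ∃ N, j ≤ Nat.primeCounting N := by
    have := Nat.tendsto_primeCounting
    exact (this.eventually_ge_atTop j).exists
  classical
  set N := Nat.find hex with hN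
  have hN1 : j ≤ Nat.primeCounting N := Nat.find_spec hex
  have hNpos : 1 ≤ N := by
    by_contra h0
    have h0' : N = 0 := by omega
    rw [h0'] at hN1
    simp at hN1
  have hN2 : Nat.primeCounting (N - 1) < j := by
    have := Nat.find_min hex (m := N - 1) (by omega)
    omega
  have hN3 : Nat.primeCounting N ≤ j := by
    have h1 : Nat.primeCounting N ≤ Nat.primeCounting (N - 1) + 1 := by
      have h2 : N = (N - 1) + 1 := by omega
      conv_lhs => rw [h2]
      unfold Nat.primeCounting Nat.primeCounting'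
      rw [Nat.count_succ]
      split_ifs <;> omega
    omega
  refine ⟨primorial N, primorial_pos N, ?_, ?_⟩
  · refine lt_of_lt_of_le (Nat.lt_pow_succ_log_self (b := 2) (by norm_num) k) ?_
    refine le_trans ?_ (card_div N)
    exact Nat.pow_le_pow_right (by norm_num) hN1
  · have hNr : (0 : ℝ) < N := by exact_mod_cast hNpos
    have ht : (0 : ℝ) < primorial N := by exact_mod_cast primorial_pos N
    have h1 := totient_ge N hNpos
    have h2 : Real.log (primorial N) ≤ j * Real.log N := by
      have h3 := Chebyshev.theta_eq_log_primorial (N : ℝ)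
      rw [Nat.floor_natCast] at h3
      rw [← h3]
      refine (Chebyshev.theta_le_pi_mul_log N).trans ?_
      have : (Nat.primeCounting N : ℝ) ≤ j := by exact_mod_cast hN3
      have hl : 0 ≤ Real.log N := Real.log_nonneg (by exact_mod_cast hNpos)
      gcongr
    have h4 := log_bound δ hδ hδ1 N j hNpos hN2
    have h5 : ((j : ℝ) + 1) * Real.log N ≤ (1 + ε) * Lam k := by
      have hδ' : 0 < 1 - δ := by linarith
      have h6 : (j : ℝ) + 1 ≤ Real.log k / Real.log 2 + 2 := by
        have h7 : ((Nat.log 2 k : ℕ) : ℝ) ≤ Real.log k / Real.log 2 := by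
          rw [le_div_iff₀ hl2, ← Real.log_pow]
          apply Real.log_le_log (by positivity)
          exact_mod_cast Nat.pow_log_le_self 2 hkn
        rw [hj]
        push_cast
        linarith
      have hj0 : (0 : ℝ) ≤ j := Nat.cast_nonneg j
      have hlj : 0 ≤ Real.log ((j : ℝ) + 1) := Real.log_nonneg (by linarith)
      have h8 : (1 - δ) * (((j : ℝ) + 1) * Real.log N) ≤
          (1 - δ) * ((1 + ε) * Lam k) := by
        calc (1 - δ) * (((j : ℝ) + 1) * Real.log N)
            = ((j : ℝ) + 1) * ((1 - δ) * Real.log N) := by ring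
          _ ≤ ((j : ℝ) + 1) * (Real.log ((j : ℝ) + 1) + c) := by
              rw [hc]
              gcongr
              linarith
          _ ≤ (Real.log k / Real.log 2 + 2) * (Real.log (Real.log k / Real.log 2 + 2) + c) := by
              gcongr
          _ ≤ (1 + ε / 2) * (Real.log k * Real.log (Real.log k) / Real.log 2) := hA _ hLA
          _ = (1 - δ) * ((1 + ε) * Lam k) := by
              rw [← hδ2]
              unfold Lam
              ring
      exact le_of_mul_le_mul_left h8 hδ'
    have h9 : Real.exp (-(1 + ε) * Lam k) ≤ Real.exp (-(((j : ℝ) + 1) * Real.log N)) := by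
      apply Real.exp_le_exp.2
      linarith
    refine h9.trans ?_
    have h10 : Real.exp (-(((j : ℝ) + 1) * Real.log N)) =
        Real.exp (-(j * Real.log N)) * (1 / N) := by
      rw [one_div, ← Real.exp_log (inv_pos.2 hNr), ← Real.exp_add, Real.log_inv]
      congr 1
      ring
    rw [h10]
    have h11 : Real.exp (-(j * Real.log N)) ≤ 1 / (primorial N : ℝ) := by
      rw [one_div, ← Real.exp_log (inv_pos.2 ht), Real.log_inv]
      apply Real.exp_le_exp.2
      linarith
    calc Real.exp (-(j * Real.log N)) * (1 / N)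
        ≤ (1 / (primorial N : ℝ)) * (((primorial N).totient : ℝ) / (primorial N : ℝ)) := by
          gcongr
      _ = ((primorial N).totient : ℝ) / (primorial N : ℝ) ^ 2 := by
          field_simp

end Pool.Agent.K1H67.DK
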